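import Pool.Agent.helper20.VVO.Spec
import Pool.Agent.helper26.ISA.PB2

/-! Row UPR of project vvo (MP_069684_lc): unconditional pruning for all numbers of witnesses. -/

set_option autoImplicit false

open Filter Topology

namespace Pool.Agent.VVO

open Pool.Agent.PB Pool.Agent.ISO Pool.Agent.ISA

theorem UPR_mem {β : Type} (s : Finset β) (q : β → Prop) (inst : DecidablePred q) (a : β) :
    a ∈ @Finset.filter β q inst s ↔ a ∈ s ∧ q a := Finset.mem_filter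

theorem UPR_har (j : ℕ) (hj : 1 ≤ j) : (1 : ℝ) ≤ (harmonic j : ℝ) := by
  have h1 : (1 : ℚ) ≤ harmonic j := by
    unfold harmonic
    have h2 := Finset.single_le_sum (f := fun i : ℕ => ((i + 1 : ℕ) : ℚ)⁻¹) (s := Finset.range j)
      (fun i _ => by positivity) (Finset.mem_range.2 (show 0 < j by omega))
    refine le_trans (le_of_eq ?_) h2
    norm_num
  exact_mod_cast h1

/-- the numbers -/
theorem UPR_num (ε H l p : ℝ) (n w M D k : ℕ) (hε : 0 < ε) (hε1 : ε ≤ 1) (hH : 1 ≤ H) (hl : 0 < l) (hlM : l ≤ w + M)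
    (hp : p * l ≤ (1 - ε) * H) (hD : 8 / ε ≤ D) (hk : n * (D * D) * (w + M) + 1 = k) :
    p * k ≤ (1 - ε / 8) * ((1 - ε / 2) * H / l) * k - n / (ε / 8) := by
  have hD0 : (0 : ℝ) < D := lt_of_lt_of_le (by positivity) hD
  have hk' : (k : ℝ) = n * (D * D) * (w + M) + 1 := by rw [← hk]; push_cast; ring
  have hn0 : (0 : ℝ) ≤ n := Nat.cast_nonneg _
  have hk0 : (0 : ℝ) ≤ k := Nat.cast_nonneg _
  have h1 : p ≤ (1 - ε) * H / l := by
    rw [le_div_iff₀ hl]
    exact hp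
  have h2 : p * k ≤ (1 - ε) * H / l * k := mul_le_mul_of_nonneg_right h1 hk0
  have hHl : 1 / l ≤ H / l := div_le_div_of_nonneg_right hH hl.le
  have h3 : (1 - ε) * H / l + 3 * ε / 8 * (1 / l) ≤ (1 - ε / 8) * ((1 - ε / 2) * H / l) := by
    have h4 : (1 - ε / 8) * ((1 - ε / 2) * H / l) = (1 - ε) * H / l + 3 * ε / 8 * (H / l) + ε ^ 2 / 16 * (H / l) := by
      ring
    have h5 : 3 * ε / 8 * (1 / l) ≤ 3 * ε / 8 * (H / l) := mul_le_mul_of_nonneg_left hHl (by positivity)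
    have h6 : 0 ≤ ε ^ 2 / 16 * (H / l) := by positivity
    rw [h4]
    linarith
  have h4 : ((1 - ε) * H / l + 3 * ε / 8 * (1 / l)) * k ≤ (1 - ε / 8) * ((1 - ε / 2) * H / l) * k :=
    mul_le_mul_of_nonneg_right h3 hk0
  have h5 : (n : ℝ) / (ε / 8) ≤ 3 * ε / 8 * (1 / l) * k := by
    have hDD : 64 / ε ^ 2 ≤ (D : ℝ) * D := by
      have h6 : (8 / ε) * (8 / ε) ≤ (D : ℝ) * D := mul_le_mul hD hD (by positivity) hD0.le
      have h7 : 64 / ε ^ 2 = (8 / ε) * (8 / ε) := by field_simp; norm_num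
      rw [h7]
      exact h6
    have h8 : (n : ℝ) * (64 / ε ^ 2) * l ≤ k := by
      rw [hk']
      have h9 : (n : ℝ) * (64 / ε ^ 2) * l ≤ n * (D * D) * (w + M) :=
        mul_le_mul (mul_le_mul_of_nonneg_left hDD hn0) hlM hl.le (by positivity)
      linarith
    have h10 : 3 * ε / 8 * (1 / l) * ((n : ℝ) * (64 / ε ^ 2) * l) ≤ 3 * ε / 8 * (1 / l) * k :=
      mul_le_mul_of_nonneg_left h8 (by positivity)
    have h11 : 3 * ε / 8 * (1 / l) * ((n : ℝ) * (64 / ε ^ 2) * l) = 3 * (n / (ε / 8)) := by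
      field_simp
      ring
    have h12 : 0 ≤ (n : ℝ) / (ε / 8) := by positivity
    linarith
  have h6 : ((1 - ε) * H / l + 3 * ε / 8 * (1 / l)) * k = (1 - ε) * H / l * k + 3 * ε / 8 * (1 / l) * k := by ring
  linarith

open Classical in
/-- one input length -/
theorem UPR_one (hPRS : PRS_stmt) (hPTL : ISO.PTL_stmt) (hCIR : ISO.CIR_stmt) (ε : ℝ) (j M' r : ℕ) (hε : 0 < ε)
    (hε1 : ε ≤ 1) (hj : 1 ≤ j)
    (hKEY : ∀ (w m : ℕ) (α : Type) [Fintype α] (Kf : α → Finset (Fin w → Bool)) (μ : α → ℝ),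
      M' ≤ m → (∀ a, 0 ≤ μ a) → ∑ a, μ a = 1 → (∀ a, 1 ≤ (Kf a).card ∧ (Kf a).card ≤ m) →
      ∃ (t : ℕ) (a : Fin t → (Fin w → Bool) × Bool) (A : Fin r → Fin w → Bool) (T : Finset (Fin r → Bool)), 2 ^ t ≤ M' * m ∧
      (1 - ε / 2) * (harmonic j : ℝ) / Real.log m ≤
        ∑ e, μ e * ind (1 ≤ ((Kf e).filter fun y => asat a y ∧ lin A y ∈ T).card ∧ ((Kf e).filter fun y => asat a y ∧ lin A y ∈ T).card ≤ j))
    (n w s m B D : ℕ) (p : ℝ) (f : BF (n + w)) (hm : M' + 3 ≤ m)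
    (hp : p * Real.log m ≤ (1 - ε) * (harmonic j : ℝ)) (hD : 8 / ε ≤ D) (hf : Size std f s)
    (hB1 : n * (D * D) * (w + (M' + 3)) + 1 ≤ B)
    (hB2 : s + 100 * 2 ^ r * (r + 1) * (w + 1) ^ 2 + 100 * (2 * (M' + 3) + w + 1) * (w + 1) ^ 2 + 20 ≤ B) :
    Prun m (Set.Icc 1 j) p B f := by
  obtain ⟨M, hM⟩ : ∃ M : ℕ, M = M' + 3 := ⟨_, rfl⟩
  rw [← hM] at hm hB1 hB2
  have hM1 : 1 ≤ M := by omega
  obtain ⟨m', hm1, hm2, hm3, hm4⟩ : ∃ m' : ℕ, M ≤ m' ∧ m' ≤ m ∧ m' ≤ M * 2 ^ w ∧ ∀ x, x ≤ m → x ≤ 2 ^ w → x ≤ m' := by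
    refine ⟨min m (max M (2 ^ w)), le_min hm (le_max_left _ _), min_le_left _ _, (min_le_right _ _).trans (max_le ?_ ?_), ?_⟩
    · exact Nat.le_mul_of_pos_right _ (Nat.two_pow_pos w)
    · exact Nat.le_mul_of_pos_left _ (by omega)
    · intro x hx1 hx2
      exact le_min hx1 (hx2.trans (le_max_right _ _))
  have hH := UPR_har j hj
  have hm'3 : (3 : ℝ) ≤ m' := by
    have : 3 ≤ m' := by omega
    exact_mod_cast this
  have hl : 0 < Real.log m' := Real.log_pos (by linarith)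
  have hlM : Real.log m' ≤ w + M := by
    have h1 : (m' : ℝ) ≤ M * 2 ^ w := by exact_mod_cast hm3
    have hM0 : (0 : ℝ) < M := by exact_mod_cast hM1
    have h2 : Real.log m' ≤ Real.log (M * 2 ^ w) := Real.log_le_log (by linarith) h1
    rw [Real.log_mul hM0.ne' (by positivity), Real.log_pow] at h2
    have h3 : Real.log M ≤ M - 1 := Real.log_le_sub_one_of_pos hM0
    have h4 : Real.log 2 ≤ 1 := by
      have := Real.log_le_sub_one_of_pos (show (0 : ℝ) < 2 by norm_num)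
      linarith
    have h5 : (w : ℝ) * Real.log 2 ≤ w * 1 := mul_le_mul_of_nonneg_left h4 (Nat.cast_nonneg _)
    linarith
  by_cases hne : Nonempty {x : Fin n → Bool // 1 ≤ wit f x ∧ wit f x ≤ m}
  swap
  · refine ⟨1, fun _ => f, le_rfl, by omega, fun _ => hCIR.2.2.1 _ s B f hf (by omega), fun _ z hz => hz, fun x h1 h2 => ?_⟩
    exact absurd ⟨⟨x, h1, h2⟩⟩ hne
  let Kf : {x : Fin n → Bool // 1 ≤ wit f x ∧ wit f x ≤ m} → Finset (Fin w → Bool) :=
    fun a => Finset.univ.filter fun y => f (Fin.append a.1 y) = true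
  have hKf : ∀ a, (Kf a).card = wit f a.1 := fun a => rfl
  let hit : {i : Σ t : ℕ, (Fin t → (Fin w → Bool) × Bool) × (Fin r → Fin w → Bool) × Finset (Fin r → Bool) // 2 ^ i.1 ≤ M' * m'} →
      {x : Fin n → Bool // 1 ≤ wit f x ∧ wit f x ≤ m} → Prop := fun i a =>
    1 ≤ ((Kf a).filter fun y => asat i.1.2.1 y ∧ lin i.1.2.2.1 y ∈ i.1.2.2.2).card ∧
      ((Kf a).filter fun y => asat i.1.2.1 y ∧ lin i.1.2.2.1 y ∈ i.1.2.2.2).card ≤ j
  obtain ⟨k, hk⟩ : ∃ k : ℕ, n * (D * D) * (w + M) + 1 = k := ⟨_, rfl⟩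
  have hq0 : 0 ≤ (1 - ε / 2) * (harmonic j : ℝ) / Real.log m' := by
    have : 0 ≤ 1 - ε / 2 := by linarith
    positivity
  obtain ⟨L, hL⟩ := hPTL {x : Fin n → Bool // 1 ≤ wit f x ∧ wit f x ≤ m}
    {i : Σ t : ℕ, (Fin t → (Fin w → Bool) × Bool) × (Fin r → Fin w → Bool) × Finset (Fin r → Bool) // 2 ^ i.1 ≤ M' * m'}
    hit ((1 - ε / 2) * (harmonic j : ℝ) / Real.log m') (ε / 8) k (by positivity) (by linarith) hq0 (by
      intro μ hμ hμ1
      obtain ⟨t, a, A, T, ht, hsum⟩ := hKEY w m' {x : Fin n → Bool // 1 ≤ wit f x ∧ wit f x ≤ m} Kf μ (by omega) hμ hμ1 (by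
        intro a
        rw [hKf]
        refine ⟨a.2.1, hm4 _ a.2.2 ?_⟩
        rw [← hKf]
        refine (Finset.card_le_univ _).trans (le_of_eq ?_)
        rw [Fintype.card_fun, Fintype.card_bool, Fintype.card_fin])
      refine ⟨⟨⟨t, a, A, T⟩, ht⟩, hsum.trans (le_of_eq ?_)⟩
      rw [Finset.sum_filter]
      refine Finset.sum_congr rfl fun e _ => ?_
      unfold ind
      by_cases hh : 1 ≤ ((Kf e).filter fun y => asat a y ∧ lin A y ∈ T).card ∧ ((Kf e).filter fun y => asat a y ∧ lin A y ∈ T).card ≤ j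
      · rw [if_pos hh, if_pos (show hit ⟨⟨t, a, A, T⟩, ht⟩ e from hh), mul_one]
      · rw [if_neg hh, if_neg (show ¬ hit ⟨⟨t, a, A, T⟩, ht⟩ e from hh), mul_zero])
  have hcard : ∀ inst : Fintype {x : Fin n → Bool // 1 ≤ wit f x ∧ wit f x ≤ m},
      Real.log ((@Fintype.card _ inst : ℕ) : ℝ) ≤ n := by
    intro inst
    have h1 : @Fintype.card _ inst ≤ 2 ^ n := by
      refine (@Fintype.card_subtype_le _ _ _ inst).trans (le_of_eq ?_)
      rw [Fintype.card_fun, Fintype.card_bool, Fintype.card_fin]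
    have h2 : (0 : ℝ) < (@Fintype.card _ inst : ℕ) := by
      exact_mod_cast (@Fintype.card_pos _ inst hne)
    have h3 : ((@Fintype.card _ inst : ℕ) : ℝ) ≤ 2 ^ n := by exact_mod_cast h1
    have h4 := Real.log_le_log h2 h3
    rw [Real.log_pow] at h4
    have h5 : Real.log 2 ≤ 1 := by
      have := Real.log_le_sub_one_of_pos (show (0 : ℝ) < 2 by norm_num)
      linarith
    have h6 : (n : ℝ) * Real.log 2 ≤ n * 1 := mul_le_mul_of_nonneg_left h5 (Nat.cast_nonneg _)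
    linarith
  let W : Fin k → BF (n + w) := fun i z =>
    f z && decide (asat (L i).1.2.1 (fun b => z (Fin.natAdd n b)) ∧ lin (L i).1.2.2.1 (fun b => z (Fin.natAdd n b)) ∈ (L i).1.2.2.2)
  have hW : ∀ i x y, W i (Fin.append x y) = true ↔ f (Fin.append x y) = true ∧ asat (L i).1.2.1 y ∧ lin (L i).1.2.2.1 y ∈ (L i).1.2.2.2 := by
    intro i x y
    have h1 : (fun b => Fin.append x y (Fin.natAdd n b)) = y := by
      funext b
      exact Fin.append_right x y b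
    show (f (Fin.append x y) && decide (asat (L i).1.2.1 (fun b => Fin.append x y (Fin.natAdd n b)) ∧
      lin (L i).1.2.2.1 (fun b => Fin.append x y (Fin.natAdd n b)) ∈ (L i).1.2.2.2)) = true ↔ _
    rw [h1, Bool.and_eq_true, decide_eq_true_iff]
  refine ⟨k, W, by omega, by omega, ?_, ?_, ?_⟩
  · intro i
    have h1 := hPRS n w r (L i).1.1 s f (W i) (L i).1.2.1 (L i).1.2.2.1 (L i).1.2.2.2 hf (hW i)
    have ht : (L i).1.1 ≤ 2 * M + w := by
      have h2 : 2 ^ (L i).1.1 ≤ 2 ^ (2 * M + w) := by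
        have hMM : M ≤ 2 ^ M := Nat.lt_two_pow_self.le
        calc 2 ^ (L i).1.1 ≤ M' * m' := (L i).2
          _ ≤ M * (M * 2 ^ w) := Nat.mul_le_mul (by omega) hm3
          _ ≤ 2 ^ M * (2 ^ M * 2 ^ w) := Nat.mul_le_mul hMM (Nat.mul_le_mul_right _ hMM)
          _ = 2 ^ (2 * M + w) := by ring
      exact (Nat.pow_le_pow_iff_right (by norm_num)).1 h2
    refine hCIR.2.2.1 _ _ B _ h1 ?_
    have h3 : 100 * ((L i).1.1 + 1) * (w + 1) ^ 2 ≤ 100 * (2 * M + w + 1) * (w + 1) ^ 2 :=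
      Nat.mul_le_mul_right _ (Nat.mul_le_mul_left _ (by omega))
    omega
  · intro i z hz
    have hz' : (f z && decide (asat (L i).1.2.1 (fun b => z (Fin.natAdd n b)) ∧
      lin (L i).1.2.2.1 (fun b => z (Fin.natAdd n b)) ∈ (L i).1.2.2.2)) = true := hz
    rw [Bool.and_eq_true] at hz'
    exact hz'.1
  · intro x hx1 hx2
    by_cases hp0 : p ≤ 0
    · have h1 : p * (k : ℝ) ≤ 0 := mul_nonpos_of_nonpos_of_nonneg hp0 (Nat.cast_nonneg _)
      exact h1.trans (Nat.cast_nonneg _)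
    · push Not at hp0
      have hpl : p * Real.log m' ≤ (1 - ε) * (harmonic j : ℝ) := by
        refine le_trans (mul_le_mul_of_nonneg_left ?_ hp0.le) hp
        exact Real.log_le_log (by linarith) (by exact_mod_cast hm2)
      have h2 := UPR_num ε (harmonic j : ℝ) (Real.log m') p n w M D k hε hε1 hH hl hlM hpl hD hk
      have h3 := hL ⟨x, hx1, hx2⟩
      refine le_trans ?_ (h3.trans ?_)
      · refine h2.trans (sub_le_sub_left (div_le_div_of_nonneg_right ?_ (by positivity)) _)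
        exact hcard _
      · refine Nat.cast_le.2 (Finset.card_le_card fun i hi => ?_)
        have hi2 := ((UPR_mem _ _ _ _).1 hi).2
        refine (UPR_mem _ _ _ _).2 ⟨Finset.mem_univ _, ?_⟩
        have h7 : wit (W i) x = ((Kf ⟨x, hx1, hx2⟩).filter fun y => asat (L i).1.2.1 y ∧ lin (L i).1.2.2.1 y ∈ (L i).1.2.2.2).card := by
          unfold wit
          rw [Finset.filter_filter]
          refine congrArg Finset.card (Finset.filter_congr fun y _ => hW i x y)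
        rw [h7]
        exact hi2

theorem UPR (hKEY : KEY_stmt) (hPRS : PRS_stmt) (hPTL : ISO.PTL_stmt) (hCIR : ISO.CIR_stmt) : UPR_stmt := by
  intro ε j hε hε1 hj
  obtain ⟨M', r, hK⟩ := hKEY (ε / 2) j (by positivity) hj
  refine ⟨M' + 3, fun m p hm hp w V c hV => ?_⟩
  obtain ⟨D, hD⟩ := exists_nat_ge (8 / ε)
  have hw : PB2_P w := ⟨c, fun n => (hV n).1⟩
  have hw1 : PB2_P (fun n => (w n + 1) * (w n + 1)) :=
    PB2_mul (PB2_add hw (PB2_const 1)) (PB2_add hw (PB2_const 1))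
  have h1 : PB2_P (fun n => n * (D * D) * (w n + (M' + 3)) + 1) :=
    PB2_add (PB2_mul (PB2_mul PB2_id (PB2_const _)) (PB2_add hw (PB2_const _))) (PB2_const 1)
  have h2 : PB2_P (fun n => n ^ c + c + 100 * 2 ^ r * (r + 1) * ((w n + 1) * (w n + 1)) +
      100 * (2 * (M' + 3) + w n + 1) * ((w n + 1) * (w n + 1)) + 20) :=
    PB2_add (PB2_add (PB2_add ⟨c, fun n => le_rfl⟩ (PB2_mul (PB2_const _) hw1))
      (PB2_mul (PB2_mul (PB2_const 100) (PB2_add (PB2_add (PB2_const _) hw) (PB2_const 1))) hw1)) (PB2_const 20)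
  obtain ⟨c', hc'⟩ := PB2_add h1 h2
  refine ⟨c', fun n => ?_⟩
  have h3 : n * (D * D) * (w n + (M' + 3)) + 1 + (n ^ c + c + 100 * 2 ^ r * (r + 1) * ((w n + 1) * (w n + 1)) +
      100 * (2 * (M' + 3) + w n + 1) * ((w n + 1) * (w n + 1)) + 20) ≤ n ^ c' + c' := hc' n
  refine UPR_one hPRS hPTL hCIR ε j M' r hε hε1 hj hK n (w n) (n ^ c + c) (m n) (n ^ c' + c') D (p n) (V n) (hm n) (hp n) hD
    (hV n).2 (by omega) ?_
  rw [sq]
  omega

end Pool.Agent.VVO
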